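import Pool.Agent.Q75.BS.Stm
import Pool.Agent.TH103.BL.Loc

/-!
# Project BS (helper75), job SPR: `S_SPR`. Author of this file: helper222, adapted from
`Pool/Agent/TH103/BL/Loc.lean` (helper103).
-/

set_option autoImplicit false

namespace Pool.Agent.Q222.BS

open Complex Set MeasureTheory Filter Topology Pool.Agent.W780.PG Pool.Agent.W780.BB
open Pool.Agent.TH103.BL Pool.Agent.Q75.BS

open scoped Real ComplexConjugate

variable {n : ℕ} {p : Fin (n + 3) → ℂ}

/-- folding preserves the measure -/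
theorem mp_fp (p : Fin (n + 3) → ℂ) : ∀ w : List (Fin (n + 3)), MeasurePreserving (fp p w)
  | [] => MeasurePreserving.id _
  | i :: w => (mp_fp p w).comp (Pool.Agent.W333.BB.mp_rf p i)

/-- a property of almost all directions holds, for almost all directions, for all folded
directions -/
theorem dir_ae (hp : IsConvexPolygon p) {P : ℝ → Prop} (hP : ∀ᵐ θ : ℝ, P θ) :
    ∀ᵐ θ : ℝ, ∀ (w : List (Fin (n + 3))) (z : ℂ), P (fd p w (z, θ)).2 := by
  rw [ae_all_iff]
  intro w
  obtain ⟨e, c, he, hec⟩ := (hR n p hp).2.2.2.2.2.2.2.2.2.2.1 w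
  have h1 : ∀ᵐ θ : ℝ, P (e * θ + c) := by
    rcases neg_one_pow_eq_or ℝ w.length with h | h
    · rw [he, h]
      have h2 := (measurePreserving_add_right (volume : Measure ℝ) c).quasiMeasurePreserving.ae hP
      filter_upwards [h2] with θ h3
      rw [one_mul]
      exact h3
    · rw [he, h]
      have h2 := (Measure.measurePreserving_sub_left (volume : Measure ℝ) c).quasiMeasurePreserving.ae hP
      filter_upwards [h2] with θ h3
      rw [neg_one_mul, neg_add_eq_sub]
      exact h3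
  filter_upwards [h1] with θ h3 z
  rw [(hec z θ).1]
  exact h3

theorem spr_fwd (hp : IsConvexPolygon p) {f : ℂ × ℝ → ℝ} (hI : IsInvariantFun p f) {r : ℝ}
    (hr : 0 < r) (hV : LimNear p f r) :
    ∀ᵐ θ : ℝ, ∀ z ∈ reg p, (∀ w j, ∀ s : ℝ, 0 < s → z + s • dir θ ≠ uf p w (p j)) →
      ∃ c, Lim (sli f θ) z c := by
  have hopen := reg_open hp
  have hall : ∀ᵐ θ : ℝ, ∀ m : ℕ, ∀ z ∈ reg p, ∀ (u : ℕ → Fin (n + 3)) (t : ℕ → ℝ),
      Orb p z θ u t → ∃ K s j, tp t K < s ∧ s < t K ∧
      ‖ps p z θ u K s - p j‖ < 1 / ((m : ℝ) + 1) := by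
    rw [ae_all_iff]
    intro m
    exact allz hp (by positivity)
  filter_upwards [dir_ae hp hV, hall] with θ hθ1 hθ2 z hz hgen
  -- the orbit
  have hOk : Ok p z θ 0 := by
    refine ⟨?_, hgen⟩
    have hc : Continuous fun s : ℝ => z + s • dir θ := by fun_prop
    have h3 : ∀ᶠ s in 𝓝 (0 : ℝ), z + s • dir θ ∈ reg p :=
      hc.continuousAt (hopen.mem_nhds (by rw [zero_smul, add_zero]; exact hz))
    obtain ⟨δ, hδ, hball⟩ := Metric.eventually_nhds_iff.1 h3
    refine ⟨δ, hδ, fun s h4 h5 => hball ?_⟩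
    rw [Real.dist_eq, sub_zero, abs_of_pos h4]
    exact h5
  obtain ⟨u, t, O⟩ := exists_orb hp hOk
  -- distance to the vertices
  obtain ⟨d, hd0, hd⟩ : ∃ d : ℝ, 0 < d ∧ ∀ j, d ≤ ‖z - p j‖ := by
    have h1 : ∀ᶠ d in 𝓝[>] (0 : ℝ), ∀ j, d ≤ ‖z - p j‖ := by
      rw [eventually_all]
      intro j
      have h2 : 0 < ‖z - p j‖ := by
        rw [norm_pos_iff, sub_ne_zero]
        rintro rfl
        have h3 := hz j
        change 0 < sf p j (p j) at h3
        rw [Pool.Agent.W82.BB.sf_vertex_left] at h3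
        exact lt_irrefl _ h3
      filter_upwards [Ioo_mem_nhdsGT h2] with d hd using hd.2.le
    obtain ⟨d, h2, h3⟩ := (h1.and self_mem_nhdsWithin).exists
    exact ⟨d, h3, h2⟩
  obtain ⟨m, hm⟩ := exists_nat_gt (1 / min r (d / 2))
  have hmin : 0 < min r (d / 2) := lt_min hr (by linarith)
  have hm1 : 1 / ((m : ℝ) + 1) < min r (d / 2) := by
    rw [div_lt_iff₀ (by positivity)]
    rw [div_lt_iff₀ hmin] at hm
    linarith
  have hmr := hm1.trans_le (min_le_left _ _)
  have hmd := hm1.trans_le (min_le_right _ _)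
  set ε : ℝ := 1 / ((m : ℝ) + 1) with hε
  obtain ⟨K, q, j, hq1, hq2, hq3⟩ := hθ2 m z hz u t O
  -- the time is not small
  have hqε : ε < q := by
    have h1 := ps_dist hp O K q hq1.le
    have h2 := hd j
    have h3 : ‖z - p j‖ ≤ ‖ps p z θ u K q - z‖ + ‖ps p z θ u K q - p j‖ := by
      have e : z - p j = -(ps p z θ u K q - z) + (ps p z θ u K q - p j) := by ring
      rw [e]
      refine (norm_add_le _ _).trans ?_
      rw [norm_neg]
    linarith
  -- the orbit does not lie on the line through the vertex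
  have hsd : sd p j (ps p z θ u K q, angs p θ u K) ≠ 0 := by
    intro h0
    obtain ⟨l, hl1, hl2⟩ := sd_zero h0
    have hl3 : l < q := by
      have := le_abs_self l
      linarith
    have h1 : (fd p ((List.range K).map u) (z + (q - l) • dir θ, θ)).1 = p j := by
      rw [fd_word hp]
      show srcs p z u K + ((q : ℝ) - l) • dir (angs p θ u K) = p j
      rw [hl1]
      unfold ps
      rw [sub_smul]
      ring
    have h2 := (hR n p hp).2.2.2.2.2.2.2.2.1 ((List.range K).map u) (z + (q - l) • dir θ) θ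
    rw [h2] at h1
    have h3 := ((hR n p hp).2.2.2.2.2.2.1 ((List.range K).map u) (z + (q - l) • dir θ)).2
    rw [h1] at h3
    exact hgen _ j (q - l) (by linarith) h3.symm
  -- everything is stable
  set w := (List.range K).map u with hw
  have hcz : Continuous fun z' : ℂ => z' + q • dir θ := by fun_prop
  have e0 : fd p w (z + q • dir θ, θ) = (ps p z θ u K q, angs p θ u K) := fd_word hp _ _ _ _ _
  have e1 : fp p w (z + q • dir θ) = ps p z θ u K q := by
    rw [← (hR n p hp).2.2.2.2.2.2.2.2.1 w (z + q • dir θ) θ, e0]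
  have hch0 : Ch p w z (z + q • dir θ) := orb_ch hp O hq1 hq2
  have hfd : ∀ z' : ℂ, fd p w (z' + q • dir θ, θ) = (fp p w (z' + q • dir θ), angs p θ u K) := by
    intro z'
    refine Prod.ext ?_ ?_
    · exact (hR n p hp).2.2.2.2.2.2.2.2.1 w (z' + q • dir θ) θ
    · simp only [hw, fd_word hp]
  have hP := hθ1 w (z + q • dir θ)
  rw [e0] at hP
  have hps : ps p z θ u K q ∈ reg p := by
    rw [← e1]
    exact ch_mem _ _ _ hch0
  obtain ⟨c, hc⟩ := hP _ hps j (hq3.trans hmr) hsd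
  refine ⟨c, fun η hη => ?_⟩
  obtain ⟨ρ₁, hρ₁, h1⟩ := hc η hη
  have c1 : ∀ᶠ z' in 𝓝 z, Ch p w z' (z' + q • dir θ) :=
    ((Pool.Agent.W762.BB.open_it n p hp w).preimage
      (continuous_id.prodMk hcz)).mem_nhds hch0
  have c3 : ∀ᶠ z' in 𝓝 z, z' ∈ reg p := hopen.mem_nhds hz
  obtain ⟨ρ, hρ, hball⟩ := Metric.eventually_nhds_iff.1 (c1.and c3)
  refine ⟨min ρ ρ₁, lt_min hρ hρ₁, ?_⟩
  have h2 := ((mp_fp p w).comp (measurePreserving_add_right (volume : Measure ℂ)
    (q • dir θ))).quasiMeasurePreserving.ae h1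
  filter_upwards [h2] with z' h3 h4
  obtain ⟨a1, a2⟩ := hball (show dist z' z < ρ by
    rw [dist_eq_norm]; exact h4.trans_le (min_le_left _ _))
  have h5 : f (z', θ) = f (fp p w (z' + q • dir θ), angs p θ u K) := by
    rw [inv_fun hp hI a2 a1, hfd]
  change |f (z', θ) - c| ≤ η
  rw [h5]
  refine h3 ?_
  change ‖fp p w (z' + q • dir θ) - ps p z θ u K q‖ < ρ₁
  rw [← e1, (hR n p hp).2.2.2.2.2.2.2.1, add_sub_add_right_eq_sub]
  exact h4.trans_le (min_le_right _ _)

theorem near_rev {f : ℂ × ℝ → ℝ} {r : ℝ} (hV : LimNear p f r) :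
    LimNear p (fun x => f (x.1, x.2 + π)) r := by
  have h1 := (measurePreserving_add_right (volume : Measure ℝ) π).quasiMeasurePreserving.ae hV
  filter_upwards [h1] with θ hθ z hz i h2 h3
  refine hθ z hz i h2 ?_
  rw [sd_pi]
  exact neg_ne_zero.2 h3

theorem spr_bwd (hp : IsConvexPolygon p) {f : ℂ × ℝ → ℝ} (hI : IsInvariantFun p f) {r : ℝ}
    (hr : 0 < r) (hV : LimNear p f r) :
    ∀ᵐ θ : ℝ, ∀ z ∈ reg p, (∀ w j, ∀ s : ℝ, 0 < s → z - s • dir θ ≠ uf p w (p j)) →
      ∃ c, Lim (sli f θ) z c := by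
  have h1 := spr_fwd hp (rev_inv hI) hr (near_rev hV)
  have h2 := (measurePreserving_add_right (volume : Measure ℝ) (-π)).quasiMeasurePreserving.ae h1
  filter_upwards [h2] with θ hθ z hz hgen
  have e1 : dir (θ + -π) = - dir θ := by
    have := dir_pi (θ + -π)
    rw [neg_add_cancel_right] at this
    rw [this, neg_neg]
  obtain ⟨c, h3⟩ := hθ z hz (fun w j s hs => by
    rw [e1, smul_neg, ← sub_eq_add_neg]
    exact hgen w j s hs)
  refine ⟨c, ?_⟩
  have e2 : sli (fun x : ℂ × ℝ => f (x.1, x.2 + π)) (θ + -π) = sli f θ := by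
    funext z'
    change f (z', θ + -π + π) = f (z', θ)
    rw [neg_add_cancel_right]
  rw [← e2]
  exact h3

/-- **SPR** -/
theorem t_SPR : S_SPR := by
  intro n p hp f hI r hr hV
  filter_upwards [spr_fwd hp hI hr hV, spr_bwd hp hI hr hV, no_diag p] with θ h1 h2 h3 z hz
  rcases h3 z with h | h
  · exact h1 z hz h
  · exact h2 z hz h

end Pool.Agent.Q222.BS
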